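import Mathlib

/-!
# A determinant-maximising matrix of a graph with a negative entry

`𝒜(G, x)` is the set of positive definite real symmetric matrices with unit diagonal and with entry `x` at
every edge of `G`, and `𝐀_G(x)` is its element of maximal determinant.

The graph: the join of the icosahedron graph (12 vertices) with an independent set of 2809 vertices.
For `x = 1/13` the entry of `𝐀_G(x)` at every antipodal pair of the icosahedron is `-11/169`.
-/

set_option autoImplicit false

namespace Pool.Agent.Results.MP_e7c87c_co.NegativeEntry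

open Matrix

section general

variable {V : Type} [Fintype V] [DecidableEq V]

/-- The set `𝒜(G, x)` of real symmetric positive definite matrices `M` with `M v v = 1` for all vertices `v` and
`M u v = x` for all edges `u v` of `G` (Mathlib's `Matrix.PosDef` includes symmetry). -/
def Admissible (G : SimpleGraph V) (x : ℝ) : Set (Matrix V V ℝ) :=
  {M | M.PosDef ∧ (∀ v, M v v = 1) ∧ ∀ u v, G.Adj u v → M u v = x}

/-- `M` is the matrix `𝐀_G(x)`: it lies in `𝒜(G, x)` and every other element of `𝒜(G, x)` has a smaller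
determinant. -/
def IsMaxDet (G : SimpleGraph V) (x : ℝ) (M : Matrix V V ℝ) : Prop :=
  M ∈ Admissible G x ∧ ∀ N ∈ Admissible G x, N ≠ M → N.det < M.det

lemma det_lt_one {C : Matrix V V ℝ} (hC : C.PosDef) (ht : C.trace = Fintype.card V) (h1 : C ≠ 1) :
    C.det < 1 := by
  have hH := hC.isHermitian
  have hdet := hH.det_eq_prod_eigenvalues
  have htr := hH.trace_eq_sum_eigenvalues
  have hpos := hC.eigenvalues_pos
  have hne : ∃ i, hH.eigenvalues i ≠ 1 := by
    by_contra hcon
    push Not at hcon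
    apply h1
    have hs := hH.spectral_theorem
    have hd : diagonal (RCLike.ofReal ∘ hH.eigenvalues) = (1 : Matrix V V ℝ) := by
      ext i j
      by_cases hij : i = j
      · subst hij; simp [hcon]
      · simp [hij]
    rw [hd] at hs
    simpa using hs
  obtain ⟨i, hi⟩ := hne
  have hlt : ∏ i, hH.eigenvalues i < ∏ i, Real.exp (hH.eigenvalues i - 1) := by
    apply Finset.prod_lt_prod
    · intro j _; exact hpos j
    · intro j _
      have := Real.add_one_le_exp (hH.eigenvalues j - 1)
      linarith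
    · refine ⟨i, Finset.mem_univ _, ?_⟩
      have := Real.add_one_lt_exp (x := hH.eigenvalues i - 1) (by intro h; apply hi; linarith)
      linarith
  have he : ∏ i, Real.exp (hH.eigenvalues i - 1) = 1 := by
    rw [← Real.exp_sum, Finset.sum_sub_distrib]
    have : ∑ i, hH.eigenvalues i = Fintype.card V := by
      have := htr
      simp only [RCLike.ofReal_real_eq_id, id] at this
      rw [← this, ht]
    rw [this]
    simp
  rw [hdet]
  simp only [RCLike.ofReal_real_eq_id, id]
  linarith

lemma isMaxDet_of (G : SimpleGraph V) (x : ℝ) (M K : Matrix V V ℝ) (hM : M ∈ Admissible G x)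
    (hMK : M * K = 1) (hK : ∀ u v, u ≠ v → ¬ G.Adj u v → K u v = 0) : IsMaxDet G x M := by
  refine ⟨hM, fun N hN hne => ?_⟩
  obtain ⟨hMp, hMd, hMe⟩ := hM
  obtain ⟨hNp, hNd, hNe⟩ := hN
  have hdM := hMp.det_pos
  have hM0 : IsUnit M.det := (ne_of_gt hdM).isUnit
  have hKinv : M⁻¹ = K := inv_eq_right_inv hMK
  have hKM : K * M = 1 := by rw [← hKinv]; exact nonsing_inv_mul _ hM0
  obtain ⟨B, hB⟩ : ∃ B : Matrix V V ℝ, M = Bᴴ * B := by
    open scoped MatrixOrder in
    obtain ⟨a, ha⟩ := CStarAlgebra.nonneg_iff_eq_star_mul_self.mp hMp.posSemidef.nonneg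
    exact ⟨a, ha⟩
  have hdB : B.det ≠ 0 := by
    intro h
    rw [hB, det_mul, h, mul_zero] at hdM
    exact lt_irrefl _ hdM
  have hBu : IsUnit B.det := hdB.isUnit
  have hBB : B * B⁻¹ = 1 := mul_nonsing_inv _ hBu
  have hBB' : B⁻¹ * B = 1 := nonsing_inv_mul _ hBu
  set C : Matrix V V ℝ := (B⁻¹)ᴴ * N * B⁻¹ with hC
  have hCp : C.PosDef := by
    apply hNp.conjTranspose_mul_mul_same
    intro a b hab
    have := congrArg (fun w => B *ᵥ w) hab
    simpa [mulVec_mulVec, hBB] using this
  have hNC : N = Bᴴ * C * B := by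
    have h1 : Bᴴ * (B⁻¹)ᴴ = 1 := by
      rw [← conjTranspose_mul, hBB', conjTranspose_one]
    calc N = (Bᴴ * (B⁻¹)ᴴ) * N * (B⁻¹ * B) := by rw [h1, hBB']; simp
      _ = Bᴴ * C * B := by rw [hC]; simp only [Matrix.mul_assoc]
  have htr : C.trace = Fintype.card V := by
    have h1 : C.trace = (N * K).trace := by
      rw [hC, trace_mul_comm, ← Matrix.mul_assoc, trace_mul_comm, ← hKinv, hB, Matrix.mul_inv_rev,
        conjTranspose_nonsing_inv]
    have h2 : (N * K).trace = (M * K).trace := by
      rw [trace, trace]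
      refine Finset.sum_congr rfl fun u _ => ?_
      rw [diag_apply, diag_apply, mul_apply, mul_apply]
      refine Finset.sum_congr rfl fun v _ => ?_
      by_cases huv : u = v
      · subst huv; rw [hMd, hNd]
      · by_cases ha : G.Adj u v
        · rw [hMe u v ha, hNe u v ha]
        · rw [hK v u (Ne.symm huv) (fun h => ha h.symm)]; simp
    rw [h1, h2, hMK, trace_one]
  have hC1 : C ≠ 1 := by
    intro h
    apply hne
    rw [hNC, h, hB]; simp
  have hlt := det_lt_one hCp htr hC1
  have hBp : 0 < Bᴴ.det * B.det := by rw [← det_mul, ← hB]; exact hdM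
  have e1 : N.det = Bᴴ.det * B.det * C.det := by
    rw [hNC, det_mul, det_mul]; ring
  have e2 : M.det = Bᴴ.det * B.det := by rw [hB, det_mul]
  rw [e1, e2]
  exact mul_lt_of_lt_one_right hBp hlt

end general

/-- The Paley conference matrix of order 6: symmetric, zero diagonal, entries `±1` off the diagonal, `C² = 5`. -/
def conf : Matrix (Fin 6) (Fin 6) ℤ :=
  !![0, 1, 1, 1, 1, 1;
     1, 0, 1, -1, -1, 1;
     1, 1, 0, 1, -1, -1;
     1, -1, 1, 0, 1, -1;
     1, -1, -1, 1, 0, 1;
     1, 1, -1, -1, 1, 0]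

/-- The sign of a boolean. -/
def sgn (s : Bool) : ℤ := if s then 1 else -1

/-- The signed entry: `1` at the edges of the icosahedron, `-1` at distance two, `0` on antipodal and equal pairs. -/
def ico (p q : Fin 6 × Bool) : ℤ := conf p.1 q.1 * (sgn p.2 * sgn q.2)

/-- The graph `G`: the icosahedron on `Fin 6 × Bool`, joined completely to 2809 independent vertices. -/
def G : SimpleGraph ((Fin 6 × Bool) ⊕ Fin 2809) where
  Adj
    | .inl p, .inl q => ico p q = 1
    | .inl _, .inr _ => True
    | .inr _, .inl _ => True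
    | .inr _, .inr _ => False
  symm := ⟨by
    rintro (p | p) (q | q) h
    · revert h; revert p q; decide +kernel
    · trivial
    · trivial
    · exact h⟩
  loopless := ⟨by
    rintro (p | p) h
    · revert h; revert p; decide +kernel
    · exact h⟩

/-- `169` times the icosahedron block of the maximiser. -/
def P : Matrix (Fin 6 × Bool) (Fin 6 × Bool) ℤ := Matrix.of fun p q =>
  if p = q then 169 else if ico p q = 1 then 13 else if ico p q = -1 then 85 else -11

/-- `180/169` times the icosahedron block of the inverse. -/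
def Q : Matrix (Fin 6 × Bool) (Fin 6 × Bool) ℤ := Matrix.of fun p q =>
  if p = q then 5 else if ico p q = 1 then 2 else 0

lemma PQ : ∀ p q : Fin 6 × Bool, (P * Q) p q = if p = q then 975 else 795 := by decide +kernel

lemma P_row : ∀ p : Fin 6 × Bool, ∑ q, P p q = 648 := by decide +kernel

lemma Q_col : ∀ q : Fin 6 × Bool, ∑ p, Q p q = 15 := by decide +kernel

lemma P_symm : Pᵀ = P := by decide +kernel

/-- the maximiser -/
noncomputable def M : Matrix ((Fin 6 × Bool) ⊕ Fin 2809) ((Fin 6 × Bool) ⊕ Fin 2809) ℝ :=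
  fromBlocks (Matrix.of fun p q => (P p q : ℝ) / 169) (Matrix.of fun _ _ => 1 / 13) (Matrix.of fun _ _ => 1 / 13)
    (Matrix.of fun i j => if i = j then 1 else 1 / 54)

/-- its inverse -/
noncomputable def K : Matrix ((Fin 6 × Bool) ⊕ Fin 2809) ((Fin 6 × Bool) ⊕ Fin 2809) ℝ :=
  fromBlocks (Matrix.of fun p q => (169 / 180) * (Q p q : ℝ)) (Matrix.of fun _ _ => -13 / 636)
    (Matrix.of fun _ _ => -13 / 636) (Matrix.of fun i j => if i = j then 54 / 53 else 0)

lemma MK : M * K = 1 := by
  rw [M, K, fromBlocks_multiply, ← fromBlocks_one, fromBlocks_inj]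
  refine ⟨?_, ?_, ?_, ?_⟩
  · ext p q
    rw [Matrix.add_apply, Matrix.mul_apply, Matrix.mul_apply]
    simp only [Matrix.of_apply]
    have h := PQ p q
    rw [Matrix.mul_apply] at h
    have h' : (∑ j, (P p j : ℝ) * (Q j q : ℝ)) = if p = q then 975 else 795 := by
      have := congrArg (fun z : ℤ => (z : ℝ)) h
      push_cast at this
      exact this
    have e : ∑ j, (P p j : ℝ) / 169 * (169 / 180 * (Q j q : ℝ)) = (1 / 180) * ∑ j, (P p j : ℝ) * (Q j q : ℝ) := by
      rw [Finset.mul_sum]
      refine Finset.sum_congr rfl fun j _ => ?_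
      ring
    rw [e, h', Finset.sum_const, Finset.card_univ, Fintype.card_fin, Matrix.one_apply]
    split_ifs <;> norm_num
  · ext p i
    rw [Matrix.add_apply, Matrix.mul_apply, Matrix.mul_apply]
    simp only [Matrix.of_apply]
    have h := P_row p
    have h' : (∑ j, (P p j : ℝ)) = 648 := by exact_mod_cast h
    have e : ∑ j, (P p j : ℝ) / 169 * (-13 / 636) = (-13 / 636 / 169) * ∑ j, (P p j : ℝ) := by
      rw [Finset.mul_sum]
      refine Finset.sum_congr rfl fun j _ => ?_
      ring
    rw [e, h']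
    simp
    norm_num
  · ext i q
    rw [Matrix.add_apply, Matrix.mul_apply, Matrix.mul_apply]
    simp only [Matrix.of_apply]
    have h := Q_col q
    have h' : (∑ j, (Q j q : ℝ)) = 15 := by exact_mod_cast h
    have e : ∑ j, (1 / 13 : ℝ) * (169 / 180 * (Q j q : ℝ)) = (1 / 13 * (169 / 180)) * ∑ j, (Q j q : ℝ) := by
      rw [Finset.mul_sum]
      refine Finset.sum_congr rfl fun j _ => ?_
      ring
    have e2 : ∑ j : Fin 2809, (if i = j then (1 : ℝ) else 1 / 54) * (-13 / 636) =
        ∑ j : Fin 2809, ((if i = j then (1 - 1 / 54 : ℝ) else 0) * (-13 / 636) + 1 / 54 * (-13 / 636)) := by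
      refine Finset.sum_congr rfl fun j _ => ?_
      split_ifs <;> ring
    rw [e, h', e2, Finset.sum_add_distrib]
    simp
    norm_num
  · ext i j
    rw [Matrix.add_apply, Matrix.mul_apply, Matrix.mul_apply]
    simp only [Matrix.of_apply]
    have e2 : ∑ k : Fin 2809, (if i = k then (1 : ℝ) else 1 / 54) * (if k = j then (54 / 53 : ℝ) else 0) =
        (if i = j then (1 : ℝ) else 1 / 54) * (54 / 53) := by
      simp
    rw [e2, Finset.sum_const, Finset.card_univ, Matrix.one_apply]
    simp only [Fintype.card_prod, Fintype.card_fin, Fintype.card_bool]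
    split_ifs <;> norm_num

/-- The quadratic form of the icosahedron block as a sum of squares. -/
lemma form_P (u : Fin 6 × Bool → ℝ) :
    2 * ∑ p, ∑ q, (P p q : ℝ) * (u p * u q) =
      60 * ∑ i, (u (i, true) + u (i, false)) ^ 2 + 98 * (∑ i, (u (i, true) + u (i, false))) ^ 2 +
      16 * ∑ i, (9 / 4 * (u (i, true) - u (i, false)) - ∑ j, (conf i j : ℝ) * (u (j, true) - u (j, false))) ^ 2 +
      19 * ∑ i, (u (i, true) - u (i, false)) ^ 2 := by
  simp only [Fintype.sum_prod_type, Fin.sum_univ_six, Fintype.sum_bool]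
  simp [P, ico, conf, sgn]
  ring

lemma form_M (z : (Fin 6 × Bool) ⊕ Fin 2809 → ℝ) :
    z ⬝ᵥ (M *ᵥ z) = 1 / 169 * ∑ p, ∑ q, (P p q : ℝ) * (z (.inl p) * z (.inl q)) +
      2 / 13 * (∑ p, z (.inl p)) * (∑ i, z (.inr i)) + 53 / 54 * ∑ i, z (.inr i) ^ 2 +
      1 / 54 * (∑ i, z (.inr i)) ^ 2 := by
  have h11 : ∀ p, ∑ q, M (.inl p) (.inl q) * z (.inl q) = ∑ q, (P p q : ℝ) / 169 * z (.inl q) := fun p => rfl
  have h12 : ∀ p, ∑ i, M (.inl p) (.inr i) * z (.inr i) = 1 / 13 * ∑ i, z (.inr i) := by
    intro p; rw [Finset.mul_sum]; rfl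
  have h21 : ∀ i, ∑ q, M (.inr i) (.inl q) * z (.inl q) = 1 / 13 * ∑ q, z (.inl q) := by
    intro p; rw [Finset.mul_sum]; rfl
  have h22 : ∀ i, ∑ j, M (.inr i) (.inr j) * z (.inr j) = 53 / 54 * z (.inr i) + 1 / 54 * ∑ j, z (.inr j) := by
    intro i
    have : ∀ j, M (.inr i) (.inr j) * z (.inr j) =
        (if i = j then 53 / 54 * z (.inr j) else 0) + 1 / 54 * z (.inr j) := by
      intro j
      have e : M (.inr i) (.inr j) = if i = j then 1 else 1 / 54 := rfl
      rw [e]
      split_ifs <;> ring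
    rw [Finset.sum_congr rfl fun j _ => this j, Finset.sum_add_distrib, ← Finset.mul_sum]
    simp
  simp only [dotProduct, mulVec, Fintype.sum_sum_type, h11, h12, h21, h22, mul_add, Finset.sum_add_distrib]
  have a1 : ∑ p, z (.inl p) * ∑ q, (P p q : ℝ) / 169 * z (.inl q) =
      1 / 169 * ∑ p, ∑ q, (P p q : ℝ) * (z (.inl p) * z (.inl q)) := by
    rw [Finset.mul_sum]
    refine Finset.sum_congr rfl fun p _ => ?_
    rw [Finset.mul_sum, Finset.mul_sum]
    refine Finset.sum_congr rfl fun q _ => ?_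
    ring
  have a2 : ∑ p, z (.inl p) * (1 / 13 * ∑ i, z (.inr i)) = 1 / 13 * (∑ p, z (.inl p)) * ∑ i, z (.inr i) := by
    rw [← Finset.sum_mul]; ring
  have a3 : ∑ i, z (.inr i) * (1 / 13 * ∑ q, z (.inl q)) = 1 / 13 * (∑ p, z (.inl p)) * ∑ i, z (.inr i) := by
    rw [← Finset.sum_mul]; ring
  have a4 : ∑ i, z (.inr i) * (53 / 54 * z (.inr i)) = 53 / 54 * ∑ i, z (.inr i) ^ 2 := by
    rw [Finset.mul_sum]
    refine Finset.sum_congr rfl fun i _ => ?_
    ring
  have a5 : ∑ i, z (.inr i) * (1 / 54 * ∑ j, z (.inr j)) = 1 / 54 * (∑ i, z (.inr i)) ^ 2 := by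
    rw [← Finset.sum_mul]; ring
  rw [a1, a2, a3, a4, a5]
  ring

lemma M_symm : M.IsHermitian := by
  rw [IsHermitian, conjTranspose_eq_transpose_of_trivial]
  ext (p | i) (q | j)
  · change (P q p : ℝ) / 169 = (P p q : ℝ) / 169
    have := congrFun (congrFun P_symm p) q
    rw [transpose_apply] at this
    rw [this]
  · rfl
  · rfl
  · change (if j = i then (1 : ℝ) else 1 / 54) = if i = j then (1 : ℝ) else 1 / 54
    by_cases h : i = j
    · simp [h]
    · simp [h, Ne.symm h]

/-- Completing the square: the whole quadratic form. -/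
lemma form_square (z : (Fin 6 × Bool) ⊕ Fin 2809 → ℝ) :
    z ⬝ᵥ (M *ᵥ z) = 1 / 169 * ∑ p, ∑ q, (P p q : ℝ) *
        ((z (.inl p) + 13 / 648 * ∑ i, z (.inr i)) * (z (.inl q) + 13 / 648 * ∑ i, z (.inr i))) +
      53 / 54 * ∑ i, z (.inr i) ^ 2 := by
  rw [form_M]
  set S := ∑ i, z (.inr i)
  have h1 : ∑ p, ∑ q, (P p q : ℝ) * ((z (.inl p) + 13 / 648 * S) * (z (.inl q) + 13 / 648 * S)) =
      ∑ p, ∑ q, (P p q : ℝ) * (z (.inl p) * z (.inl q)) +
      13 / 648 * S * ∑ p, z (.inl p) * ∑ q, (P p q : ℝ) +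
      13 / 648 * S * ∑ p, ∑ q, (P p q : ℝ) * z (.inl q) +
      (13 / 648 * S) ^ 2 * ∑ p, ∑ q, (P p q : ℝ) := by
    simp only [Finset.mul_sum, ← Finset.sum_add_distrib]
    refine Finset.sum_congr rfl fun p _ => Finset.sum_congr rfl fun q _ => ?_
    ring
  have hr : ∀ p, ∑ q, (P p q : ℝ) = 648 := by
    intro p; exact_mod_cast P_row p
  have hc : ∑ p, ∑ q, (P p q : ℝ) * z (.inl q) = 648 * ∑ q, z (.inl q) := by
    rw [Finset.sum_comm, Finset.mul_sum]
    refine Finset.sum_congr rfl fun q _ => ?_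
    rw [← Finset.sum_mul, ← hr q]
    congr 1
    refine Finset.sum_congr rfl fun p _ => ?_
    have := congrFun (congrFun P_symm p) q
    rw [transpose_apply] at this
    rw [this]
  rw [h1, hc]
  simp only [hr, ← Finset.sum_mul, Finset.sum_const, Finset.card_univ, Fintype.card_prod, Fintype.card_fin,
    Fintype.card_bool, nsmul_eq_mul]
  push_cast
  ring

lemma M_posDef : M.PosDef := by
  refine PosDef.of_dotProduct_mulVec_pos M_symm fun z hz => ?_
  rw [star_trivial, form_square]
  set S := ∑ i, z (.inr i) with hS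
  set y : Fin 6 × Bool → ℝ := fun p => z (.inl p) + 13 / 648 * S with hy
  have hf := form_P y
  set Z := ∑ p, ∑ q, (P p q : ℝ) * (y p * y q) with hZ
  have b1 : 0 ≤ ∑ i, (y (i, true) + y (i, false)) ^ 2 := Finset.sum_nonneg fun _ _ => sq_nonneg _
  have b2 : 0 ≤ (∑ i, (y (i, true) + y (i, false))) ^ 2 := sq_nonneg _
  have b3 : 0 ≤ ∑ i, (9 / 4 * (y (i, true) - y (i, false)) -
      ∑ j, (conf i j : ℝ) * (y (j, true) - y (j, false))) ^ 2 := Finset.sum_nonneg fun _ _ => sq_nonneg _
  have b4 : 0 ≤ ∑ i, (y (i, true) - y (i, false)) ^ 2 := Finset.sum_nonneg fun _ _ => sq_nonneg _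
  have b5 : 0 ≤ ∑ i : Fin 2809, z (.inr i) ^ 2 := Finset.sum_nonneg fun _ _ => sq_nonneg _
  have hZ0 : 0 ≤ Z := by linarith
  change 0 < 1 / 169 * Z + 53 / 54 * ∑ i, z (.inr i) ^ 2
  by_contra hcon
  have c5 : ∑ i : Fin 2809, z (.inr i) ^ 2 = 0 := by linarith
  have cZ : Z = 0 := by linarith
  have c1 : ∑ i, (y (i, true) + y (i, false)) ^ 2 = 0 := by linarith
  have c4 : ∑ i, (y (i, true) - y (i, false)) ^ 2 = 0 := by linarith
  have d5 : ∀ i, z (.inr i) = 0 := by
    intro i
    have := (Finset.sum_eq_zero_iff_of_nonneg (fun i _ => sq_nonneg (z (.inr i)))).mp c5 i (Finset.mem_univ _)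
    exact pow_eq_zero_iff (two_ne_zero) |>.mp this
  have hS0 : S = 0 := by rw [hS]; exact Finset.sum_eq_zero fun i _ => d5 i
  have d1 : ∀ i, y (i, true) + y (i, false) = 0 := by
    intro i
    have := (Finset.sum_eq_zero_iff_of_nonneg
      (fun i _ => sq_nonneg (y (i, true) + y (i, false)))).mp c1 i (Finset.mem_univ _)
    exact pow_eq_zero_iff (two_ne_zero) |>.mp this
  have d4 : ∀ i, y (i, true) - y (i, false) = 0 := by
    intro i
    have := (Finset.sum_eq_zero_iff_of_nonneg
      (fun i _ => sq_nonneg (y (i, true) - y (i, false)))).mp c4 i (Finset.mem_univ _)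
    exact pow_eq_zero_iff (two_ne_zero) |>.mp this
  apply hz
  funext w
  rcases w with ⟨i, s⟩ | i
  · have e1 := d1 i
    have e4 := d4 i
    have e : y (i, s) = 0 := by
      cases s
      · linarith
      · linarith
    have : y (i, s) = z (.inl (i, s)) + 13 / 648 * S := rfl
    rw [hS0] at this
    simp only [Pi.zero_apply]
    linarith
  · exact d5 i

lemma M_mem : M ∈ Admissible G (1 / 13) := by
  refine ⟨M_posDef, ?_, ?_⟩
  · rintro (p | i)
    · change (P p p : ℝ) / 169 = 1
      simp [P]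
    · change (if i = i then (1 : ℝ) else 1 / 54) = 1
      simp
  · rintro (p | i) (q | j) h
    · change (P p q : ℝ) / 169 = 1 / 13
      have hpq : ico p q = 1 := h
      have hne : p ≠ q := by
        rintro rfl
        exact G.loopless.irrefl _ h
      simp only [P, Matrix.of_apply, if_neg hne, if_pos hpq]
      norm_num
    · rfl
    · rfl
    · exact absurd h (by intro h; exact h)

lemma K_zero (u v : (Fin 6 × Bool) ⊕ Fin 2809) (huv : u ≠ v) (h : ¬ G.Adj u v) : K u v = 0 := by
  rcases u with p | i <;> rcases v with q | j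
  · change (169 / 180) * (Q p q : ℝ) = 0
    have h1 : ¬ ico p q = 1 := h
    have h2 : p ≠ q := fun e => huv (by rw [e])
    simp [Q, h1, h2]
  · exact absurd trivial h
  · exact absurd trivial h
  · change (if i = j then (54 / 53 : ℝ) else 0) = 0
    have h2 : i ≠ j := fun e => huv (by rw [e])
    simp [h2]

lemma G_connected : G.Connected := by
  have c : Fin 2809 := 0
  rw [SimpleGraph.connected_iff_exists_forall_reachable]
  refine ⟨.inl (0, true), ?_⟩
  have h1 : ∀ j, G.Reachable (.inl (0, true)) (.inr j) := fun j =>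
    SimpleGraph.Adj.reachable (show G.Adj (.inl (0, true)) (.inr j) from trivial)
  rintro (p | j)
  · exact (h1 c).trans (SimpleGraph.Adj.reachable (show G.Adj (.inr c) (.inl p) from trivial))
  · exact h1 j

/-- There are a finite connected graph `G`, a number `x ∈ (0, 1)` (namely `1/13`) and two vertices such that the
corresponding entry of the determinant-maximising matrix `𝐀_G(x)` is negative. -/
theorem result : ∃ (V : Type) (_ : Fintype V) (_ : DecidableEq V) (G : SimpleGraph V) (x : ℝ) (A : Matrix V V ℝ),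
    G.Connected ∧ 0 < x ∧ x < 1 ∧ IsMaxDet G x A ∧ ∃ u v, A u v < 0 := by
  refine ⟨(Fin 6 × Bool) ⊕ Fin 2809, inferInstance, inferInstance, G, 1 / 13, M, G_connected, by norm_num, by norm_num,
    isMaxDet_of G _ M K M_mem MK K_zero, .inl (0, true), .inl (0, false), ?_⟩
  change (P (0, true) (0, false) : ℝ) / 169 < 0
  have : P (0, true) (0, false) = -11 := by decide +kernel
  rw [this]
  norm_num

end Pool.Agent.Results.MP_e7c87c_co.NegativeEntry
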